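import Pool.Agent.W990.EB.Stm

set_option autoImplicit false

/-! # Polynomial growth of the polynomials -/

namespace Pool.Agent.W462.EB

open Pool.Agent.W990.EB

/-- at most polynomial growth -/
def PB (P : ℝ → ℝ → ℝ → ℝ → ℝ) : Prop :=
  ∃ (C : ℝ) (k : ℕ), 0 ≤ C ∧ ∀ a b c d : ℝ, 0 ≤ a → 0 ≤ b → 0 ≤ c → 0 ≤ d →
    |P a b c d| ≤ C * (1 + a + b + c + d) ^ k

lemma PB.const (x : ℝ) : PB (fun _ _ _ _ => x) :=
  ⟨|x|, 0, abs_nonneg x, fun a b c d _ _ _ _ => by simp⟩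

lemma PB.mul {P Q : ℝ → ℝ → ℝ → ℝ → ℝ} (hP : PB P) (hQ : PB Q) :
    PB (fun a b c d => P a b c d * Q a b c d) := by
  obtain ⟨C, k, hC, h⟩ := hP
  obtain ⟨C', k', hC', h'⟩ := hQ
  refine ⟨C * C', k + k', mul_nonneg hC hC', fun a b c d ha hb hc hd => ?_⟩
  rw [abs_mul, pow_add]
  have h1 := h a b c d ha hb hc hd
  have h2 := h' a b c d ha hb hc hd
  have h3 : (0 : ℝ) ≤ 1 + a + b + c + d := by linarith
  calc |P a b c d| * |Q a b c d| ≤ (C * (1 + a + b + c + d) ^ k) * (C' * (1 + a + b + c + d) ^ k') :=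
        mul_le_mul h1 h2 (abs_nonneg _) (by positivity)
    _ = C * C' * ((1 + a + b + c + d) ^ k * (1 + a + b + c + d) ^ k') := by ring

lemma PB.add {P Q : ℝ → ℝ → ℝ → ℝ → ℝ} (hP : PB P) (hQ : PB Q) :
    PB (fun a b c d => P a b c d + Q a b c d) := by
  obtain ⟨C, k, hC, h⟩ := hP
  obtain ⟨C', k', hC', h'⟩ := hQ
  refine ⟨C + C', k + k', add_nonneg hC hC', fun a b c d ha hb hc hd => ?_⟩
  have h1 := h a b c d ha hb hc hd
  have h2 := h' a b c d ha hb hc hd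
  have h3 : (1 : ℝ) ≤ 1 + a + b + c + d := by linarith
  have h4 : (1 + a + b + c + d) ^ k ≤ (1 + a + b + c + d) ^ (k + k') :=
    pow_le_pow_right₀ h3 (Nat.le_add_right _ _)
  have h5 : (1 + a + b + c + d) ^ k' ≤ (1 + a + b + c + d) ^ (k + k') :=
    pow_le_pow_right₀ h3 (Nat.le_add_left _ _)
  calc |P a b c d + Q a b c d| ≤ |P a b c d| + |Q a b c d| := abs_add_le _ _
    _ ≤ C * (1 + a + b + c + d) ^ (k + k') + C' * (1 + a + b + c + d) ^ (k + k') :=
        add_le_add (h1.trans (mul_le_mul_of_nonneg_left h4 hC))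
          (h2.trans (mul_le_mul_of_nonneg_left h5 hC'))
    _ = (C + C') * (1 + a + b + c + d) ^ (k + k') := by ring

lemma PB.neg {P : ℝ → ℝ → ℝ → ℝ → ℝ} (hP : PB P) : PB (fun a b c d => -P a b c d) := by
  obtain ⟨C, k, hC, h⟩ := hP
  refine ⟨C, k, hC, fun a b c d ha hb hc hd => ?_⟩
  rw [abs_neg]
  exact h a b c d ha hb hc hd

lemma PB.sub {P Q : ℝ → ℝ → ℝ → ℝ → ℝ} (hP : PB P) (hQ : PB Q) :
    PB (fun a b c d => P a b c d - Q a b c d) := by
  have h := hP.add hQ.neg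
  simpa only [sub_eq_add_neg] using h

lemma PB.pow {P : ℝ → ℝ → ℝ → ℝ → ℝ} (hP : PB P) (n : ℕ) : PB (fun a b c d => P a b c d ^ n) := by
  induction n with
  | zero => simpa only [pow_zero] using PB.const 1
  | succ n ih => simpa only [pow_succ] using ih.mul hP

lemma PB.div {P : ℝ → ℝ → ℝ → ℝ → ℝ} (hP : PB P) (x : ℝ) : PB (fun a b c d => P a b c d / x) := by
  simpa only [div_eq_mul_inv] using hP.mul (PB.const x⁻¹)

lemma PB.p1 : PB (fun a _ _ _ => a) :=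
  ⟨1, 1, zero_le_one, fun a b c d ha hb hc hd => by
    rw [abs_of_nonneg ha]; linarith [pow_one (1 + a + b + c + d)]⟩

lemma PB.p2 : PB (fun _ b _ _ => b) :=
  ⟨1, 1, zero_le_one, fun a b c d ha hb hc hd => by
    rw [abs_of_nonneg hb]; linarith [pow_one (1 + a + b + c + d)]⟩

lemma PB.p3 : PB (fun _ _ c _ => c) :=
  ⟨1, 1, zero_le_one, fun a b c d ha hb hc hd => by
    rw [abs_of_nonneg hc]; linarith [pow_one (1 + a + b + c + d)]⟩

lemma PB.p4 : PB (fun _ _ _ d => d) :=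
  ⟨1, 1, zero_le_one, fun a b c d ha hb hc hd => by
    rw [abs_of_nonneg hd]; linarith [pow_one (1 + a + b + c + d)]⟩

lemma pow_le_exp (k : ℕ) : ∃ C : ℝ, 0 ≤ C ∧ ∀ s : ℝ, 0 ≤ s → (1 + s) ^ k ≤ C * Real.exp (s / 2) := by
  refine ⟨2 ^ k * (k.factorial : ℝ) * Real.exp (1 / 2), by positivity, fun s hs => ?_⟩
  have h1 := Real.pow_div_factorial_le_exp ((1 + s) / 2) (by linarith) k
  have h2 : (0 : ℝ) < (k.factorial : ℝ) := by positivity
  rw [div_le_iff₀ h2] at h1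
  have h3 : ((1 + s) / 2) ^ k = (1 + s) ^ k / 2 ^ k := div_pow _ _ _
  rw [h3, div_le_iff₀ (by positivity)] at h1
  have h4 : Real.exp ((1 + s) / 2) = Real.exp (1 / 2) * Real.exp (s / 2) := by
    rw [← Real.exp_add]
    congr 1
    ring
  rw [h4] at h1
  calc (1 + s) ^ k ≤ Real.exp (1 / 2) * Real.exp (s / 2) * (k.factorial : ℝ) * 2 ^ k := h1
    _ = 2 ^ k * (k.factorial : ℝ) * Real.exp (1 / 2) * Real.exp (s / 2) := by ring

lemma PB.pg {P : ℝ → ℝ → ℝ → ℝ → ℝ} (hP : PB P) : PG P := by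
  obtain ⟨C, k, hC, h⟩ := hP
  obtain ⟨C', hC', h'⟩ := pow_le_exp k
  refine ⟨C * C', mul_nonneg hC hC', fun a b c d ha hb hc hd => ?_⟩
  have h1 := h a b c d ha hb hc hd
  have h2 := h' (a + b + c + d) (by positivity)
  have e : 1 + (a + b + c + d) = 1 + a + b + c + d := by ring
  rw [e] at h2
  calc |P a b c d| ≤ C * (1 + a + b + c + d) ^ k := h1
    _ ≤ C * (C' * Real.exp ((a + b + c + d) / 2)) := mul_le_mul_of_nonneg_left h2 hC
    _ = C * C' * Real.exp ((a + b + c + d) / 2) := by ring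

lemma pb_qe {D N : ℝ → ℝ → ℝ → ℝ → ℝ} (hD : PB D) (hN : PB N) :
    PB (fun a b c d => qe (D a b c d) (N a b c d)) := by
  unfold qe
  repeat' first
    | exact hD
    | exact hN
    | exact PB.const _
    | refine PB.sub ?_ ?_
    | refine PB.add ?_ ?_
    | refine PB.neg ?_
    | refine PB.mul ?_ ?_
    | refine PB.pow ?_ _
    | refine PB.div ?_ _

lemma pb_qo {D N : ℝ → ℝ → ℝ → ℝ → ℝ} (hD : PB D) (hN : PB N) :
    PB (fun a b c d => qo (D a b c d) (N a b c d)) := by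
  unfold qo
  repeat' first
    | exact hD
    | exact hN
    | exact PB.const _
    | refine PB.sub ?_ ?_
    | refine PB.add ?_ ?_
    | refine PB.neg ?_
    | refine PB.mul ?_ ?_
    | refine PB.pow ?_ _
    | refine PB.div ?_ _

lemma pb_al0 {n p q : ℝ → ℝ → ℝ → ℝ → ℝ} (hn : PB n) (hp : PB p) (hq : PB q) :
    PB (fun a b c d => al0 (n a b c d) (p a b c d) (q a b c d)) := by
  unfold al0
  repeat' first
    | exact hn
    | exact hp
    | exact hq
    | exact PB.const _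
    | refine PB.sub ?_ ?_
    | refine PB.add ?_ ?_
    | refine PB.neg ?_
    | refine PB.mul ?_ ?_
    | refine PB.pow ?_ _
    | refine PB.div ?_ _

lemma pb_be0 {n k p q : ℝ → ℝ → ℝ → ℝ → ℝ} (hn : PB n) (hk : PB k) (hp : PB p) (hq : PB q) :
    PB (fun a b c d => be0 (n a b c d) (k a b c d) (p a b c d) (q a b c d)) := by
  unfold be0
  repeat' first
    | exact hn
    | exact hk
    | exact hp
    | exact hq
    | exact PB.const _
    | refine PB.sub ?_ ?_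
    | refine PB.add ?_ ?_
    | refine PB.neg ?_
    | refine PB.mul ?_ ?_
    | refine PB.pow ?_ _
    | refine PB.div ?_ _

theorem pg : S_PG := by
  refine ⟨PB.pg ?_, PB.pg ?_, PB.pg ?_, PB.pg ?_⟩
  · exact pb_al0 (PB.p1.add PB.p4) (PB.p1.sub PB.p4) (PB.p2.sub PB.p3)
  · exact pb_be0 (PB.p1.add PB.p4) (PB.p2.add PB.p3) (PB.p1.sub PB.p4) (PB.p2.sub PB.p3)
  · exact (pb_qe (PB.p1.sub PB.p2) (PB.p1.add PB.p2)).mul (pb_qe (PB.p3.sub PB.p4) (PB.p3.add PB.p4))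
  · exact (pb_qo (PB.p1.sub PB.p2) (PB.p1.add PB.p2)).mul (pb_qo (PB.p3.sub PB.p4) (PB.p3.add PB.p4))

end Pool.Agent.W462.EB
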